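import Pool.Agent.Q329.SC.Defs
import Pool.Agent.H569R2.Approx
import Pool.Agent.H671R2.PolyAuto

/-!
# The reduction from densest `k`-subgraph
-/

namespace Pool.Agent.Q329.SC

open Pool.Agent.NPC Pool.Agent.Q329.GE

/-- The numbers below the length of a list. -/
def rl {β : Type} (l : List β) : List ℕ := List.range l.length

/-- The list of the edges of a graph. -/
def edgesL (M : List (List Bool)) : List (ℕ × ℕ) :=
  ((rl M) ×ˢ (rl M)).filter fun p => decide (p.1 < p.2) && (M.getD p.1 []).getD p.2 false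

/-- The vertex `x` is an end of the edge `i`. -/
def inc (L : List (ℕ × ℕ)) (x i : ℕ) : Bool :=
  decide ((L.getD i (0, 0)).1 = x) || decide ((L.getD i (0, 0)).2 = x)

/-- The hyperedges of the instance (`V`: the list of the vertices, the length of `R` is the number
of copies of the loops). -/
def EL (V : List ℕ) (L : List (ℕ × ℕ)) (R : List ℕ) : List (ℕ × List ℕ) :=
  V.map (fun x => (1, (rl L).filter fun i => inc L x i)) ++
    (rl L).flatMap fun i => R.map fun _ => (0, [i])

/-- The data of the instance. -/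
def inst (V : List ℕ) (L : List (ℕ × ℕ)) (R : List ℕ) (b : ℕ) :
    List Unit × List Unit × List (ℕ × List ℕ) × ℕ :=
  (L.map fun _ => (), [(), ()], EL V L R, b)

/-- The edges chosen, according to an output of the algorithm. -/
def TL (L : List (ℕ × ℕ)) (S : List (List ℕ)) : List ℕ :=
  (rl L).filter fun i => !decide (1 ∈ S.getD i [])

/-- Their ends. -/
def XL (V : List ℕ) (L : List (ℕ × ℕ)) (T : List ℕ) : List ℕ :=
  V.filter fun x => T.any fun i => inc L x i

/-- The rank of an element. -/
def rk (X : List ℕ) (u : ℕ) : ℕ := (X.filter fun y => decide (y < u)).length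

/-- The union of two blocks of `X`. -/
def blk (X : List ℕ) (h : ℕ) (ij : ℕ × ℕ) : List ℕ :=
  X.filter fun u => decide (rk X u / h = ij.1) || decide (rk X u / h = ij.2)

/-- All unions of two blocks. -/
def blks (X : List ℕ) (h : ℕ) : List (List ℕ) := ((rl X) ×ˢ (rl X)).map fun ij => blk X h ij

/-- The number of edges inside a set. -/
def cnt (L : List (ℕ × ℕ)) (W : List ℕ) : ℕ :=
  (L.filter fun p => decide (p.1 ∈ W) && decide (p.2 ∈ W)).length

/-- The output of the algorithm for a given number of edges. -/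
def orc (A : List Bool → List Bool) (V : List ℕ) (L : List (ℕ × ℕ)) (R : List ℕ) (t : ℕ) :
    List (List ℕ) :=
  (unbits (List (List ℕ)) (A (bits (inst V L R (L.length - t))))).getD []

/-- The candidates for one number of edges. -/
def cnd1 (A : List Bool → List Bool) (V : List ℕ) (L : List (ℕ × ℕ)) (R : List ℕ) (k t : ℕ) :
    List (List ℕ) :=
  blks (XL V L (TL L (orc A V L R t))) (k / 2)

/-- The candidates. -/
def cnds (A : List Bool → List Bool) (V : List ℕ) (L : List (ℕ × ℕ)) (R : List ℕ) (k : ℕ) :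
    List (List ℕ) :=
  [] :: ((rl ((0, 0) :: L)).flatMap fun t => cnd1 A V L R k t).filter fun W =>
    decide (W.length ≤ k)

/-- The best of a list of sets. -/
def bst (L : List (ℕ × ℕ)) (l : List (List ℕ)) : List ℕ :=
  ((l.filter fun W => l.all fun W' => decide (cnt L W' ≤ cnt L W)).head?).getD []

/-- The algorithm for densest `k`-subgraph. -/
def dks (A : List Bool → List Bool) (c : ℕ) (a : List (List Bool) × ℕ) : List ℕ :=
  (rl a.1).filter fun x => decide (x ∈ bst (edgesL a.1) (cnds A (rl a.1) (edgesL a.1)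
    (0 :: (rl a.1).flatMap fun _ => List.range c) a.2))

/-! ### Polynomial time -/

variable {α : Type} [TEnc α]

theorem poly_rl {β : Type} [TEnc β] {l : α → List β} (hl : Poly l) : Poly (fun a => rl (l a)) :=
  Poly.range_length hl

attribute [local fun_prop] poly_rl

theorem poly_edgesL {M : α → List (List Bool)} (hM : Poly M) : Poly (fun a => edgesL (M a)) := by
  unfold edgesL
  fun_prop

theorem poly_inc {L : α → List (ℕ × ℕ)} {x i : α → ℕ} (hL : Poly L) (hx : Poly x) (hi : Poly i) :
    Poly (fun a => inc (L a) (x a) (i a)) := by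
  unfold inc
  fun_prop

attribute [local fun_prop] poly_edgesL poly_inc

theorem poly_EL {V R : α → List ℕ} {L : α → List (ℕ × ℕ)} (hV : Poly V)
    (hL : Poly L) (hR : Poly R) : Poly (fun a => EL (V a) (L a) (R a)) := by
  unfold EL
  fun_prop

attribute [local fun_prop] poly_EL

theorem poly_inst {V R : α → List ℕ} {b : α → ℕ} {L : α → List (ℕ × ℕ)} (hV : Poly V)
    (hL : Poly L) (hR : Poly R) (hb : Poly b) :
    Poly (fun a => inst (V a) (L a) (R a) (b a)) := by
  unfold inst
  fun_prop

theorem poly_TL {L : α → List (ℕ × ℕ)} {S : α → List (List ℕ)} (hL : Poly L)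
    (hS : Poly S) : Poly (fun a => TL (L a) (S a)) := by
  unfold TL
  fun_prop

theorem poly_XL {V T : α → List ℕ} {L : α → List (ℕ × ℕ)} 
    (hV : Poly V) (hL : Poly L) (hT : Poly T) :
    Poly (fun a => XL (V a) (L a) (T a)) := by
  unfold XL
  fun_prop

theorem poly_rk {X : α → List ℕ} {u : α → ℕ} (hX : Poly X) (hu : Poly u) :
    Poly (fun a => rk (X a) (u a)) := by
  unfold rk
  fun_prop

attribute [local fun_prop] poly_inst poly_TL poly_XL poly_rk

theorem poly_blk {X : α → List ℕ} {h : α → ℕ} {ij : α → ℕ × ℕ} (hX : Poly X) (hh : Poly h)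
    (hij : Poly ij) : Poly (fun a => blk (X a) (h a) (ij a)) := by
  unfold blk
  fun_prop

attribute [local fun_prop] poly_blk

theorem poly_blks {X : α → List ℕ} {h : α → ℕ} (hX : Poly X) (hh : Poly h) :
    Poly (fun a => blks (X a) (h a)) := by
  unfold blks
  fun_prop

theorem poly_cnt {L : α → List (ℕ × ℕ)} {W : α → List ℕ} (hL : Poly L) (hW : Poly W) :
    Poly (fun a => cnt (L a) (W a)) := by
  unfold cnt
  fun_prop

attribute [local fun_prop] poly_blks poly_cnt

theorem poly_bst {L : α → List (ℕ × ℕ)} {l : α → List (List ℕ)} (hL : Poly L) (hl : Poly l) :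
    Poly (fun a => bst (L a) (l a)) := by
  unfold bst
  fun_prop

attribute [local fun_prop] poly_bst

theorem poly_orc {A : List Bool → List Bool} (hA : PolyTime A) {V R : α → List ℕ} {t : α → ℕ}
    {L : α → List (ℕ × ℕ)} (hV : Poly V) (hL : Poly L) (hR : Poly R) (ht : Poly t) :
    Poly (fun a => orc A (V a) (L a) (R a) (t a)) := by
  unfold orc
  have h4 : Poly (fun a => inst (V a) (L a) (R a) ((L a).length - t a)) := by fun_prop
  have h5 := (H569R2.poly_of_polyTime hA).comp (H569R2.poly_bits.comp h4)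
  exact Poly.optGetD (poly_unbits.comp h5) (NPC.Poly.const _)

theorem poly_cnd1 {A : List Bool → List Bool} (hA : PolyTime A) {V R : α → List ℕ} {k t : α → ℕ}
    {L : α → List (ℕ × ℕ)} (hV : Poly V) (hL : Poly L) (hR : Poly R) (hk : Poly k) (ht : Poly t) :
    Poly (fun a => cnd1 A (V a) (L a) (R a) (k a) (t a)) := by
  unfold cnd1
  have h := poly_orc hA hV hL hR ht
  fun_prop

theorem poly_cnds {A : List Bool → List Bool} (hA : PolyTime A) {V R : α → List ℕ} {k : α → ℕ}
    {L : α → List (ℕ × ℕ)} (hV : Poly V) (hL : Poly L) (hR : Poly R) (hk : Poly k) :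
    Poly (fun a => cnds A (V a) (L a) (R a) (k a)) := by
  unfold cnds
  have h3 : Poly (fun p : α × ℕ => cnd1 A (V p.1) (L p.1) (R p.1) (k p.1) p.2) :=
    poly_cnd1 hA (hV.comp (Poly.fst Poly.id)) (hL.comp (Poly.fst Poly.id))
      (hR.comp (Poly.fst Poly.id)) (hk.comp (Poly.fst Poly.id)) (Poly.snd Poly.id)
  have h4 := Poly.flatMap (F := fun a t => cnd1 A (V a) (L a) (R a) (k a) t)
    (poly_rl (Poly.cons (NPC.Poly.const (0, 0)) hL)) h3
  fun_prop

theorem poly_dks {A : List Bool → List Bool} (hA : PolyTime A) (c : ℕ) : Poly (dks A c) := by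
  unfold dks
  have h1 : Poly (fun a : List (List Bool) × ℕ => edgesL a.1) := by fun_prop
  have h2 : Poly (fun a : List (List Bool) × ℕ => rl a.1) := by fun_prop
  have h3 : Poly (fun a : List (List Bool) × ℕ => 0 :: (rl a.1).flatMap fun _ => List.range c) := by
    fun_prop
  have h4 := poly_cnds hA h2 h1 h3 (Poly.snd Poly.id)
  have h5 := poly_bst h1 h4
  refine Poly.filter (p := fun (a : List (List Bool) × ℕ) x => decide (x ∈ bst (edgesL a.1)
    (cnds A (rl a.1) (edgesL a.1) (0 :: (rl a.1).flatMap fun _ => List.range c) a.2))) h2 ?_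
  exact Poly.dec_mem (Poly.snd Poly.id) (h5.comp (Poly.fst Poly.id))

end Pool.Agent.Q329.SC
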