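import Pool.Agent.Q329.SC.Alg
import Pool.Agent.Q329.GE.Main

/-!
# The combinatorial part: blocks, edges, and the best candidate
-/

namespace Pool.Agent.Q329.SC

open Pool.Agent.NPC Pool.Agent.Q329.GE

theorem bst_spec (L : List (ℕ × ℕ)) (l : List (List ℕ)) (hl : l ≠ []) :
    bst L l ∈ l ∧ ∀ W ∈ l, cnt L W ≤ cnt L (bst L l) := by
  obtain ⟨W0, hW0, hmax⟩ := l.toFinset.exists_max_image (fun W => cnt L W)
    (by rwa [List.toFinset_nonempty_iff])
  simp only [List.mem_toFinset] at hW0 hmax
  have hmem : W0 ∈ l.filter fun W => l.all fun W' => decide (cnt L W' ≤ cnt L W) := by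
    rw [List.mem_filter]
    exact ⟨hW0, by simpa using hmax⟩
  cases hc : l.filter fun W => l.all fun W' => decide (cnt L W' ≤ cnt L W) with
  | nil => rw [hc] at hmem; simp at hmem
  | cons W r =>
    have h1 : W ∈ l.filter fun W => l.all fun W' => decide (cnt L W' ≤ cnt L W) := by
      rw [hc]; exact List.mem_cons_self
    rw [List.mem_filter] at h1
    have h2 : bst L l = W := by
      unfold bst
      rw [hc]
      rfl
    rw [h2]
    exact ⟨h1.1, by simpa using h1.2⟩

theorem cnt_eq {L : List (ℕ × ℕ)} (hL : L.Nodup) (W : List ℕ) :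
    cnt L W = (L.toFinset.filter fun p => p.1 ∈ W ∧ p.2 ∈ W).card := by
  unfold cnt
  rw [← List.toFinset_card_of_nodup (hL.filter _)]
  congr 1
  ext p
  simp

theorem rk_eq {X : List ℕ} (hX : X.Nodup) (u : ℕ) :
    rk X u = (X.toFinset.filter fun y => y < u).card := by
  unfold rk
  rw [← List.toFinset_card_of_nodup (hX.filter _)]
  congr 1
  ext p
  simp

theorem rk_lt {X : List ℕ} (hX : X.Nodup) {u : ℕ} (hu : u ∈ X) : rk X u < X.length := by
  rw [rk_eq hX, ← List.toFinset_card_of_nodup hX]
  refine Finset.card_lt_card ?_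
  rw [Finset.ssubset_iff_of_subset (Finset.filter_subset _ _)]
  exact ⟨u, by simpa using hu, by simp⟩

theorem rk_strict {X : List ℕ} (hX : X.Nodup) {u v : ℕ} (hu : u ∈ X) (h : u < v) :
    rk X u < rk X v := by
  rw [rk_eq hX, rk_eq hX]
  refine Finset.card_lt_card ?_
  rw [Finset.ssubset_iff_of_subset]
  · exact ⟨u, by simpa using ⟨hu, h⟩, by simp⟩
  · intro y hy
    rw [Finset.mem_filter] at hy ⊢
    exact ⟨hy.1, hy.2.trans h⟩

theorem block_le {X : List ℕ} (hX : X.Nodup) {h : ℕ} (hh : 0 < h) (i : ℕ) :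
    (X.filter fun u => decide (rk X u / h = i)).length ≤ h := by
  rw [← List.toFinset_card_of_nodup (hX.filter _)]
  have h1 : (Finset.Ico (i * h) (i * h + h)).card = h := by simp
  refine le_trans ?_ h1.le
  refine Finset.card_le_card_of_injOn (fun u => rk X u) ?_ ?_
  · intro u hu
    simp only [List.coe_toFinset, List.mem_filter, Set.mem_ofPred_eq, decide_eq_true_eq] at hu
    simp only [Finset.coe_Ico, Set.mem_Ico]
    have h2 := Nat.div_add_mod (rk X u) h
    have h3 := Nat.mod_lt (rk X u) hh
    rw [hu.2] at h2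
    rw [mul_comm] at h2
    omega
  · intro u hu v hv huv
    simp only [List.coe_toFinset, List.mem_filter, Set.mem_ofPred_eq, decide_eq_true_eq] at hu hv
    simp only at huv
    rcases Nat.lt_trichotomy u v with h4 | h4 | h4
    · have := rk_strict hX hu.1 h4
      omega
    · exact h4
    · have := rk_strict hX hv.1 h4
      omega

theorem blk_length {X : List ℕ} (hX : X.Nodup) {h : ℕ} (hh : 0 < h) (ij : ℕ × ℕ) :
    (blk X h ij).length ≤ 2 * h := by
  have h1 := block_le hX hh ij.1
  have h2 := block_le hX hh ij.2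
  unfold blk
  rw [← List.countP_eq_length_filter] at h1 h2 ⊢
  have h3 : ∀ (l : List ℕ) (p q : ℕ → Bool), l.countP (fun a => p a || q a) ≤
      l.countP p + l.countP q := by
    intro l p q
    induction l with
    | nil => simp
    | cons a l ih =>
      simp only [List.countP_cons]
      cases p a <;> cases q a <;> simp <;> omega
  have := h3 X (fun u => decide (rk X u / h = ij.1)) (fun u => decide (rk X u / h = ij.2))
  omega

theorem exists_blk {L : List (ℕ × ℕ)} (hL : L.Nodup) {X : List ℕ} (hX : X.Nodup) {h m : ℕ}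
    (hm : ∀ u ∈ X, rk X u / h < m) :
    cnt L X = 0 ∨ ∃ ij : ℕ × ℕ, ij.1 < X.length ∧ ij.2 < X.length ∧
      cnt L X ≤ m * m * cnt L (blk X h ij) := by
  rcases Nat.eq_zero_or_pos (cnt L X) with h0 | h0
  · exact Or.inl h0
  right
  set EX := L.toFinset.filter fun p => p.1 ∈ X ∧ p.2 ∈ X with hEX
  have hc : cnt L X = EX.card := cnt_eq hL X
  set g : ℕ × ℕ → ℕ × ℕ := fun p => (rk X p.1 / h, rk X p.2 / h) with hg
  have hne : (EX.image g).Nonempty := by
    rw [Finset.image_nonempty, ← Finset.card_pos]
    omega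
  obtain ⟨ij, hij, hmax⟩ := (EX.image g).exists_max_image (fun ij => cnt L (blk X h ij)) hne
  have hsub : EX.image g ⊆ Finset.range m ×ˢ Finset.range m := by
    intro y hy
    rw [Finset.mem_image] at hy
    obtain ⟨p, hp, rfl⟩ := hy
    rw [hEX, Finset.mem_filter] at hp
    simp only [hg, Finset.mem_product, Finset.mem_range]
    exact ⟨hm _ hp.2.1, hm _ hp.2.2⟩
  refine ⟨ij, ?_, ?_, ?_⟩
  · rw [Finset.mem_image] at hij
    obtain ⟨p, hp, rfl⟩ := hij
    rw [hEX, Finset.mem_filter] at hp
    exact lt_of_le_of_lt (Nat.div_le_self _ _) (rk_lt hX hp.2.1)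
  · rw [Finset.mem_image] at hij
    obtain ⟨p, hp, rfl⟩ := hij
    rw [hEX, Finset.mem_filter] at hp
    exact lt_of_le_of_lt (Nat.div_le_self _ _) (rk_lt hX hp.2.2)
  · rw [hc, Finset.card_eq_sum_card_image g EX]
    calc ∑ b ∈ EX.image g, (EX.filter fun a => g a = b).card
        ≤ ∑ b ∈ EX.image g, cnt L (blk X h ij) := by
          refine Finset.sum_le_sum fun b hb => ?_
          refine le_trans ?_ (hmax b hb)
          rw [cnt_eq hL]
          refine Finset.card_le_card ?_
          intro p hp
          rw [Finset.mem_filter, hEX, Finset.mem_filter] at hp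
          obtain ⟨⟨h1, h2, h3⟩, h4⟩ := hp
          rw [Finset.mem_filter]
          refine ⟨h1, ?_, ?_⟩
          · unfold blk
            rw [List.mem_filter]
            exact ⟨h2, by rw [← h4]; simp [hg]⟩
          · unfold blk
            rw [List.mem_filter]
            exact ⟨h3, by rw [← h4]; simp [hg]⟩
      _ = (EX.image g).card * cnt L (blk X h ij) := by
          rw [Finset.sum_const, smul_eq_mul]
      _ ≤ m * m * cnt L (blk X h ij) := by
          refine Nat.mul_le_mul_right _ ?_
          refine (Finset.card_le_card hsub).trans ?_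
          rw [Finset.card_product]
          simp

end Pool.Agent.Q329.SC
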