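import Pool.Agent.Q329.GE.Defs
import Pool.Agent.H671R2.ZDefs

/-!
# Single-criteria approximation of GlobalECC and RobustECC, densest `k`-subgraph: definitions
-/

namespace Pool.Agent.Q329.SC

open Pool.Agent.NPC Pool.Agent.Q329.GE

/-- Feasible solutions of GlobalECC: every node has a nonempty set of colors, and the sum of
`|S(v)| - 1` is at most the budget. -/
def GlobalFeasible (I : Inst) (S : I.Sol) : Prop := I.Feasible I.b S

/-- Feasible solutions of RobustECC: at most `b` nodes have all colors, and every other node has
exactly one color. -/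
def RobustFeasible (I : Inst) (S : I.Sol) : Prop :=
  ∃ D : Finset (Fin I.n), D.card ≤ I.b ∧ (∀ v ∈ D, S v = Finset.univ) ∧ ∀ v ∉ D, (S v).card = 1

/-- For a notion of feasible solution: a polynomial-time single-criteria `α`-approximation for the
number of mistakes, on all instances with exactly two colors. -/
def Approx (Feas : ∀ I : Inst, I.Sol → Prop) (α : ℝ) (A : List Bool → List Bool) : Prop :=
  PolyTime A ∧ ∀ I : Inst, I.q = 2 → ∃ S : I.Sol, A I.code = I.solCode S ∧ Feas I S ∧
    ∀ S' : I.Sol, Feas I S' → (I.mistakes S : ℝ) ≤ α * I.mistakes S'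

open Classical in
/-- The number of edges of the graph with both ends in `W`. -/
noncomputable def edgesIn {n : ℕ} (G : SimpleGraph (Fin n)) (W : Finset (Fin n)) : ℕ :=
  ((W ×ˢ W).filter fun p => p.1 < p.2 ∧ G.Adj p.1 p.2).card

/-- A polynomial-time `β`-approximation for the densest `k`-subgraph problem: given a graph (its
adjacency matrix) and a number `k`, it writes the list of a set of at most `k` vertices which
contains at least a fraction `1 / β` of the edges that `k` vertices can contain. -/
def DkSApprox (β : ℝ) (A : List Bool → List Bool) : Prop :=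
  PolyTime A ∧ ∀ (n : ℕ) (G : SimpleGraph (Fin n)) (k : ℕ), ∃ W : Finset (Fin n),
    A (bits (R671.adjMatrix G, k)) =
      bits (((List.finRange n).filter fun v => decide (v ∈ W)).map Fin.val) ∧ W.card ≤ k ∧
    ∀ W' : Finset (Fin n), W'.card ≤ k → (edgesIn G W' : ℝ) ≤ β * edgesIn G W

end Pool.Agent.Q329.SC
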