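import Pool.Agent.Q329.SC.Red

/-!
# A single-criteria approximation gives an approximation for densest `k`-subgraph
-/

namespace Pool.Agent.Q329.SC

open Pool.Agent.NPC Pool.Agent.Q329.GE

section graph

variable {n : ℕ} (G : SimpleGraph (Fin n))

theorem length_adj : (R671.adjMatrix G).length = n := by
  unfold R671.adjMatrix
  simp

theorem getD_adj (i j : Fin n) :
    ((R671.adjMatrix G).getD i []).getD j false = true ↔ G.Adj i j := by
  unfold R671.adjMatrix
  simp [List.getD_eq_getElem?_getD]

theorem mem_edgesL (p : ℕ × ℕ) : p ∈ edgesL (R671.adjMatrix G) ↔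
    ∃ (h1 : p.1 < n) (h2 : p.2 < n), p.1 < p.2 ∧ G.Adj ⟨p.1, h1⟩ ⟨p.2, h2⟩ := by
  obtain ⟨u, v⟩ := p
  unfold edgesL rl
  rw [List.mem_filter, List.mem_product, List.mem_range, List.mem_range, length_adj]
  simp only [Bool.and_eq_true, decide_eq_true_eq]
  constructor
  · rintro ⟨⟨h1, h2⟩, h3, h4⟩
    exact ⟨h1, h2, h3, (getD_adj G ⟨u, h1⟩ ⟨v, h2⟩).1 h4⟩
  · rintro ⟨h1, h2, h3, h4⟩
    exact ⟨⟨h1, h2⟩, h3, (getD_adj G ⟨u, h1⟩ ⟨v, h2⟩).2 h4⟩

theorem nodup_edgesL (M : List (List Bool)) : (edgesL M).Nodup := by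
  unfold edgesL rl
  exact (List.Nodup.product List.nodup_range List.nodup_range).filter _

theorem edgesIn_eq (W : Finset (Fin n)) (Wl : List ℕ) (h : ∀ v : Fin n, v ∈ W ↔ (v : ℕ) ∈ Wl) :
    edgesIn G W = cnt (edgesL (R671.adjMatrix G)) Wl := by
  classical
  rw [cnt_eq (nodup_edgesL _)]
  unfold edgesIn
  refine Finset.card_bij (fun p _ => ((p.1 : ℕ), (p.2 : ℕ))) ?_ ?_ ?_
  · rintro ⟨u, v⟩ hp
    rw [Finset.mem_filter, Finset.mem_product] at hp
    rw [Finset.mem_filter, List.mem_toFinset, mem_edgesL]
    exact ⟨⟨u.2, v.2, hp.2.1, hp.2.2⟩, (h u).1 hp.1.1, (h v).1 hp.1.2⟩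
  · rintro ⟨u, v⟩ _ ⟨u', v'⟩ _ huv
    rw [Prod.mk.injEq] at huv
    exact Prod.ext (Fin.ext huv.1) (Fin.ext huv.2)
  · rintro ⟨u, v⟩ hp
    rw [Finset.mem_filter, List.mem_toFinset, mem_edgesL] at hp
    obtain ⟨⟨h1, h2, h3, h4⟩, h5, h6⟩ := hp
    refine ⟨(⟨u, h1⟩, ⟨v, h2⟩), ?_, rfl⟩
    rw [Finset.mem_filter, Finset.mem_product]
    exact ⟨⟨(h _).2 h5, (h _).2 h6⟩, h3, h4⟩

end graph

theorem dks_of_approx {Feas : ∀ I : Inst, I.Sol → Prop} (hF : Nice Feas) {α : ℝ}
    {A : List Bool → List Bool} (hA : Approx Feas α A) {c : ℕ} (hα : α ≤ c) :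
    ∃ B, DkSApprox (9 * c ^ 2 : ℝ) B := by
  classical
  obtain ⟨hAp, hAs⟩ := hA
  obtain ⟨B, hB, hB2⟩ : ∃ B : List Bool → List Bool, PolyTime B ∧
      ∀ a : List (List Bool) × ℕ, B (bits a) = bits (dks A c a) := by
    refine ⟨_, polyTime_opt (Poly.optMap (o := unbits (List (List Bool) × ℕ))
      (f := fun _ a => dks A c a) poly_unbits ((poly_dks hAp c).comp (Poly.snd Poly.id))),
      fun a => ?_⟩
    simp [unbits_bits]
  refine ⟨B, hB, fun n G k => ?_⟩
  set M := R671.adjMatrix G with hM
  set L := edgesL M with hL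
  set V := rl M with hV
  have hVn : V = List.range n := by rw [hV, rl, hM, length_adj]
  set R : List ℕ := 0 :: V.flatMap fun _ => List.range c with hR
  have hRl : R.length = c * n + 1 := by
    rw [hR, List.length_cons, List.length_flatMap, hVn]
    simp [mul_comm]
  set K := cnds A V L R k with hK
  have hKne : K ≠ [] := by rw [hK]; simp [cnds]
  obtain ⟨hb1, hb2⟩ := bst_spec L K hKne
  set W0 := bst L K with hW0
  have hW0k : W0.length ≤ k := by
    rw [hK, cnds, List.mem_cons, List.mem_filter] at hb1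
    rcases hb1 with h | h
    · rw [h]; simp
    · simpa using h.2
  set W : Finset (Fin n) := Finset.univ.filter fun v => (v : ℕ) ∈ W0 with hW
  have hWe : edgesIn G W = cnt L W0 := edgesIn_eq G W W0 fun v => by simp [hW]
  refine ⟨W, ?_, ?_, ?_⟩
  · rw [hB2]
    unfold dks
    congr 1
    rw [show rl (M, k).1 = V from rfl, hVn, range_filter]
    congr 1
    refine List.filter_congr fun v _ => ?_
    have h1 : v ∈ W ↔ (v : ℕ) ∈ W0 := by simp [hW]
    rw [Bool.eq_iff_iff, decide_eq_true_iff, decide_eq_true_iff, h1, hW0, hK, hR, ← hVn]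
  · refine le_trans ?_ hW0k
    refine le_trans ?_ (List.toFinset_card_le W0)
    rw [← Finset.card_map Fin.valEmbedding]
    refine Finset.card_le_card ?_
    intro x hx
    rw [Finset.mem_map] at hx
    obtain ⟨v, hv, rfl⟩ := hx
    rw [List.mem_toFinset]
    simpa [hW] using hv
  · intro W' hW'
    set Wl : List ℕ := ((List.finRange n).filter fun v => decide (v ∈ W')).map Fin.val with hWl
    have hWl1 : Wl.length = W'.card := by
      rw [hWl, List.length_map, ← List.toFinset_card_of_nodup ((List.nodup_finRange n).filter _)]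
      congr 1
      ext v
      simp
    have hmem : ∀ v : Fin n, v ∈ W' ↔ (v : ℕ) ∈ Wl := by
      intro v
      rw [hWl, List.mem_map]
      constructor
      · intro hv
        exact ⟨v, by simpa using hv, rfl⟩
      · rintro ⟨u, hu, huv⟩
        have : u = v := Fin.ext huv
        subst this
        simpa using hu
    rw [hWe, edgesIn_eq G W' Wl hmem, ← hM, ← hL]
    suffices h : cnt L Wl ≤ 9 * c ^ 2 * cnt L W0 by exact_mod_cast h
    rcases Nat.eq_zero_or_pos (cnt L Wl) with h0 | h0
    · omega
    -- at least two vertices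
    have hk2 : 2 ≤ k := by
      have h1 : 0 < (L.filter fun p => decide (p.1 ∈ Wl) && decide (p.2 ∈ Wl)).length := h0
      obtain ⟨p, hp⟩ := List.exists_mem_of_length_pos h1
      rw [List.mem_filter, hL, hM, mem_edgesL] at hp
      obtain ⟨⟨h2, h3, h4, _⟩, h5⟩ := hp
      rw [Bool.and_eq_true, decide_eq_true_iff, decide_eq_true_iff] at h5
      have h6 : ({⟨p.1, h2⟩, ⟨p.2, h3⟩} : Finset (Fin n)) ⊆ W' := by
        intro v hv
        rw [Finset.mem_insert, Finset.mem_singleton] at hv
        rcases hv with rfl | rfl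
        · exact (hmem _).2 h5.1
        · exact (hmem _).2 h5.2
      have h7 := Finset.card_le_card h6
      rw [Finset.card_pair (by
        intro h
        have := congrArg Fin.val h
        simp only at this
        omega)] at h7
      omega
    have hLn : ∀ p ∈ L, p.1 < n ∧ p.2 < n := by
      intro p hp
      rw [hL, hM, mem_edgesL] at hp
      exact ⟨hp.1, hp.2.1⟩
    have hWn : Wl.length ≤ n := by
      rw [hWl1]
      exact (Finset.card_le_univ _).trans (by simp)
    -- the output for the right number of edges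
    obtain ⟨S, hS1, hS2, hS3⟩ := hAs (tinst n L (c * n + 1) (L.length - cnt L Wl)) rfl
    have hnd : L.Nodup := nodup_edgesL M
    have hfound := found (L := L) hF hα hnd hLn Wl (hWl1.trans_le hW') hWn S hS2 hS3
    set X := XL (List.range n) L (TL L (outS S)) with hX
    obtain ⟨hX1, hX2⟩ := hfound
    have horc : orc A V L R (cnt L Wl) = outS S := by
      unfold orc
      rw [hVn, ← code_tinst, hRl, hS1]
      unfold Inst.solCode
      rw [unbits_bits]
      rfl
    have hXnd : X.Nodup := by
      rw [hX]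
      unfold XL
      exact List.nodup_range.filter _
    have hh : 0 < k / 2 := by omega
    have hm : ∀ u ∈ X, rk X u / (k / 2) < 3 * c := by
      intro u hu
      rw [Nat.div_lt_iff_lt_mul hh]
      have h1 := rk_lt hXnd hu
      have h2 : c * k ≤ c * (3 * (k / 2)) := Nat.mul_le_mul_left _ (by omega)
      calc rk X u < X.length := h1
        _ ≤ c * k := hX1
        _ ≤ c * (3 * (k / 2)) := h2
        _ = 3 * c * (k / 2) := by ring
    rcases exists_blk (L := L) hnd hXnd hm with h1 | ⟨ij, h1, h2, h3⟩
    · omega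
    · have h4 : blk X (k / 2) ij ∈ K := by
        rw [hK, cnds, List.mem_cons]
        right
        rw [List.mem_filter, List.mem_flatMap]
        refine ⟨⟨cnt L Wl, ?_, ?_⟩, ?_⟩
        · unfold rl
          rw [List.mem_range, List.length_cons]
          have : cnt L Wl ≤ L.length := List.length_filter_le _ _
          omega
        · unfold cnd1 blks rl
          rw [horc, hVn, ← hX, List.mem_map]
          refine ⟨ij, ?_, rfl⟩
          obtain ⟨i, j⟩ := ij
          rw [List.mem_product, List.mem_range, List.mem_range]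
          exact ⟨h1, h2⟩
        · have := blk_length hXnd hh ij
          rw [decide_eq_true_iff]
          omega
      have h5 := hb2 _ h4
      calc cnt L Wl ≤ cnt L X := hX2
        _ ≤ 3 * c * (3 * c) * cnt L (blk X (k / 2) ij) := h3
        _ ≤ 3 * c * (3 * c) * cnt L W0 := Nat.mul_le_mul_left _ h5
        _ = 9 * c ^ 2 * cnt L W0 := by ring

theorem nice_global : Nice GlobalFeasible where
  card_le := by
    intro I S hq hS
    refine le_trans ?_ hS.2
    rw [Finset.card_filter]
    refine Finset.sum_le_sum fun v _ => ?_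
    split_ifs with h
    · rw [h, Finset.card_univ, Fintype.card_fin, hq]
    · exact Nat.zero_le _
  feas := by
    intro n L r b D hD
    refine ⟨fun v => ?_, ?_⟩
    · unfold solD
      split_ifs
      · exact ⟨0, Finset.mem_univ _⟩
      · exact ⟨0, Finset.mem_singleton_self _⟩
    · refine le_trans (le_of_eq ?_) hD
      have h : ∀ v : Fin L.length, (solD D v).card - 1 = if v ∈ D then 1 else 0 := by
        intro v
        unfold solD
        split_ifs <;> simp
      simp only [h]
      rw [Finset.sum_ite_mem]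
      simp

theorem nice_robust : Nice RobustFeasible where
  card_le := by
    intro I S hq hS
    obtain ⟨D, hD, h1, h2⟩ := hS
    refine le_trans (Finset.card_le_card ?_) hD
    intro v hv
    rw [Finset.mem_filter] at hv
    by_contra hc
    have h3 := h2 v hc
    rw [hv.2, Finset.card_univ, Fintype.card_fin, hq] at h3
    omega
  feas := by
    intro n L r b D hD
    refine ⟨D, hD, fun v hv => ?_, fun v hv => ?_⟩
    · unfold solD
      rw [if_pos hv]
    · unfold solD
      rw [if_neg hv]
      exact Finset.card_singleton _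

end Pool.Agent.Q329.SC
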