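import Pool.Agent.Q329.SC.Comb

/-!
# The instance with two colors
-/

namespace Pool.Agent.Q329.SC

open Pool.Agent.NPC Pool.Agent.Q329.GE

/-- The instance: the nodes are the edges of the graph. -/
abbrev tinst (n : ℕ) (L : List (ℕ × ℕ)) (r b : ℕ) : Inst where
  n := L.length
  q := 2
  E := (List.range n).map (fun x => ((1 : Fin 2),
      (List.finRange L.length).filter fun i : Fin L.length => inc L x i)) ++
    (List.finRange L.length).flatMap fun i => (List.range r).map fun _ => ((0 : Fin 2), [i])
  b := b

theorem code_tinst (n : ℕ) (L : List (ℕ × ℕ)) (R : List ℕ) (b : ℕ) :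
    (tinst n L R.length b).code = bits (inst (List.range n) L R b) := by
  unfold Inst.code inst EL rl
  congr 1
  refine Prod.ext ?_ (Prod.ext rfl (Prod.ext ?_ rfl))
  · simp
  · simp only [tinst, List.map_append, List.map_map]
    congr 1
    · refine List.map_congr_left fun x _ => ?_
      simp only [Function.comp_apply]
      rw [range_filter]
      rfl
    · rw [List.map_flatMap, ← List.map_coe_finRange_eq_range (n := L.length), List.flatMap_map]
      refine List.flatMap_congr fun i _ => ?_
      simp

variable {n : ℕ} {L : List (ℕ × ℕ)} {r b : ℕ}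

theorem mistakes_eq (S : Fin L.length → Finset (Fin 2)) : (tinst n L r b).mistakes S =
    ((List.range n).filter fun x => decide (∃ i : Fin L.length, inc L x i = true ∧ (1 : Fin 2) ∉ S i)).length +
      (((List.finRange L.length).flatMap fun i => (List.range r).map fun _ => ((0 : Fin 2), [i])).filter
        fun e : Fin 2 × List (Fin L.length) => decide (¬ ∀ v ∈ e.2, e.1 ∈ S v)).length := by
  unfold Inst.mistakes
  simp only [tinst, List.filter_append, List.length_append]
  congr 1
  rw [List.filter_map, List.length_map]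
  congr 1
  refine List.filter_congr fun x _ => ?_
  simp

theorem le_mistakes (S : Fin L.length → Finset (Fin 2)) :
    ((List.range n).filter fun x => decide (∃ i : Fin L.length, inc L x i = true ∧
      (1 : Fin 2) ∉ S i)).length ≤ (tinst n L r b).mistakes S := by
  rw [mistakes_eq]
  exact Nat.le_add_right _ _

theorem r_le_mistakes (S : Fin L.length → Finset (Fin 2)) {i : Fin L.length} (hi : (0 : Fin 2) ∉ S i) :
    r ≤ (tinst n L r b).mistakes S := by
  rw [mistakes_eq]
  refine le_trans ?_ (Nat.le_add_left _ _)
  rw [List.filter_flatMap, List.length_flatMap]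
  have h1 : r ≤ (((List.range r).map fun _ => ((0 : Fin 2), [i])).filter
      fun e : Fin 2 × List (Fin L.length) => decide (¬ ∀ v ∈ e.2, e.1 ∈ S v)).length := by
    rw [List.filter_map, List.length_map]
    have h2 : ((List.range r).filter ((fun e : Fin 2 × List (Fin L.length) =>
        decide (¬ ∀ v ∈ e.2, e.1 ∈ S v)) ∘ fun _ => ((0 : Fin 2), [i]))) = List.range r := by
      rw [List.filter_eq_self]
      intro a _
      simpa using hi
    rw [h2, List.length_range]
  refine h1.trans ?_
  refine List.single_le_sum (by simp) _ ?_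
  rw [List.mem_map]
  exact ⟨i, List.mem_finRange i, rfl⟩

/-- The solution given by a set of nodes with both colors. -/
def solD (D : Finset (Fin L.length)) : Fin L.length → Finset (Fin 2) := fun v =>
  if v ∈ D then Finset.univ else {(0 : Fin 2)}

theorem mistakes_solD (D : Finset (Fin L.length)) (W : List ℕ)
    (hD : ∀ i ∉ D, (L.getD i (0, 0)).1 ∈ W ∧ (L.getD i (0, 0)).2 ∈ W) :
    (tinst n L r b).mistakes (solD D) ≤ W.length := by
  rw [mistakes_eq]
  have h0 : (((List.finRange L.length).flatMap fun i => (List.range r).map fun _ =>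
      ((0 : Fin 2), [i])).filter fun e : Fin 2 × List (Fin L.length) =>
        decide (¬ ∀ v ∈ e.2, e.1 ∈ (solD D) v)) = [] := by
    rw [List.filter_eq_nil_iff]
    intro e he
    rw [List.mem_flatMap] at he
    obtain ⟨i, _, he⟩ := he
    rw [List.mem_map] at he
    obtain ⟨_, _, rfl⟩ := he
    simp only [List.mem_singleton, forall_eq, decide_eq_true_eq, not_not]
    unfold solD
    split_ifs
    · exact Finset.mem_univ _
    · exact Finset.mem_singleton_self _
  rw [h0, List.length_nil, Nat.add_zero]
  have h1 : ((List.range n).filter fun x => decide (∃ i : Fin L.length, inc L x i = true ∧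
      (1 : Fin 2) ∉ (solD D) i)) ⊆ W := by
    intro x hx
    rw [List.mem_filter] at hx
    obtain ⟨_, hx⟩ := hx
    rw [decide_eq_true_iff] at hx
    obtain ⟨i, hi, hi2⟩ := hx
    have h2 : i ∉ D := by
      intro h
      apply hi2
      unfold solD
      rw [if_pos h]
      exact Finset.mem_univ _
    have h3 := hD i h2
    unfold inc at hi
    rw [Bool.or_eq_true, decide_eq_true_iff, decide_eq_true_iff] at hi
    rcases hi with h | h
    · rw [← h]; exact h3.1
    · rw [← h]; exact h3.2
  have hnd : ((List.range n).filter fun x => decide (∃ i : Fin L.length, inc L x i = true ∧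
      (1 : Fin 2) ∉ (solD D) i)).Nodup := List.nodup_range.filter _
  exact (List.subperm_of_subset hnd h1).length_le

/-- What we need of a notion of feasible solution. -/
structure Nice (Feas : ∀ I : Inst, I.Sol → Prop) : Prop where
  card_le : ∀ (I : Inst) (S : I.Sol), I.q = 2 → Feas I S →
    (Finset.univ.filter fun v => S v = Finset.univ).card ≤ I.b
  feas : ∀ (n : ℕ) (L : List (ℕ × ℕ)) (r b : ℕ) (D : Finset (Fin L.length)), D.card ≤ b →
    Feas (tinst n L r b) (solD D)

/-- The decoded output. -/
def outS (S : Fin L.length → Finset (Fin 2)) : List (List ℕ) :=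
  List.ofFn fun v => ((List.finRange 2).filter fun c => decide (c ∈ S v)).map Fin.val

theorem mem_TL (S : Fin L.length → Finset (Fin 2)) (i : ℕ) :
    i ∈ TL L (outS S) ↔ ∃ h : i < L.length, (1 : Fin 2) ∉ S ⟨i, h⟩ := by
  unfold TL rl
  rw [List.mem_filter, List.mem_range]
  have key : ∀ h : i < L.length, (1 ∈ (outS S).getD i [] ↔ (1 : Fin 2) ∈ S ⟨i, h⟩) := by
    intro h
    have h1 : (outS S).getD i [] =
        ((List.finRange 2).filter fun c => decide (c ∈ S ⟨i, h⟩)).map Fin.val := by
      unfold outS
      rw [List.getD_eq_getElem?_getD, List.getElem?_ofFn]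
      simp [h]
    rw [h1, List.mem_map]
    constructor
    · rintro ⟨c, hc, hc2⟩
      have : c = 1 := Fin.ext hc2
      subst this
      simpa using hc
    · intro hc
      exact ⟨1, by simpa using hc, rfl⟩
  constructor
  · rintro ⟨h1, h2⟩
    refine ⟨h1, fun h => ?_⟩
    rw [Bool.not_eq_true', decide_eq_false_iff_not] at h2
    exact h2 ((key h1).2 h)
  · rintro ⟨h1, h2⟩
    refine ⟨h1, ?_⟩
    rw [Bool.not_eq_true', decide_eq_false_iff_not]
    exact fun h => h2 ((key h1).1 h)

theorem mem_XL (V : List ℕ) (T : List ℕ) (x : ℕ) :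
    x ∈ XL V L T ↔ x ∈ V ∧ ∃ i ∈ T, inc L x i = true := by
  unfold XL
  simp

/-- The main properties of the set that is found. -/
theorem found {Feas : ∀ I : Inst, I.Sol → Prop} (hF : Nice Feas) {α : ℝ} {c k : ℕ}
    (hα : α ≤ c) (hL : L.Nodup) (hLn : ∀ p ∈ L, p.1 < n ∧ p.2 < n) (W : List ℕ) (hW : W.length ≤ k)
    (hWn : W.length ≤ n) (S : Fin L.length → Finset (Fin 2))
    (hS : Feas (tinst n L (c * n + 1) (L.length - cnt L W)) S)
    (hS2 : ∀ S', Feas (tinst n L (c * n + 1) (L.length - cnt L W)) S' → ((tinst n L (c * n + 1) (L.length - cnt L W)).mistakes S : ℝ) ≤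
      α * (tinst n L (c * n + 1) (L.length - cnt L W)).mistakes S') :
    (XL (List.range n) L (TL L (outS S))).length ≤ c * k ∧
      cnt L W ≤ cnt L (XL (List.range n) L (TL L (outS S))) := by
  classical
  set I := tinst n L (c * n + 1) (L.length - cnt L W) with hI
  -- the comparison solution
  set D : Finset (Fin L.length) := Finset.univ.filter fun i =>
    ¬ ((L.getD i (0, 0)).1 ∈ W ∧ (L.getD i (0, 0)).2 ∈ W) with hD
  have hcnt : ∀ W : List ℕ, cnt L W = (Finset.univ.filter fun i : Fin L.length =>
      (L.getD i (0, 0)).1 ∈ W ∧ (L.getD i (0, 0)).2 ∈ W).card := by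
    intro W
    rw [cnt_eq hL]
    symm
    refine Finset.card_bij (fun i _ => L.getD i (0, 0)) ?_ ?_ ?_
    · intro i hi
      rw [Finset.mem_filter] at hi ⊢
      refine ⟨?_, hi.2⟩
      rw [List.mem_toFinset, List.getD_eq_getElem _ _ i.2]
      exact List.getElem_mem _
    · intro i hi j hj hij
      simp only [List.getD_eq_getElem _ _ i.2, List.getD_eq_getElem _ _ j.2] at hij
      exact Fin.ext ((List.Nodup.getElem_inj_iff hL).1 hij)
    · intro p hp
      rw [Finset.mem_filter, List.mem_toFinset] at hp
      obtain ⟨i, hi, hi2⟩ := List.getElem_of_mem hp.1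
      refine ⟨⟨i, hi⟩, ?_, ?_⟩
      · rw [Finset.mem_filter]
        refine ⟨Finset.mem_univ _, ?_⟩
        simp only [List.getD_eq_getElem _ _ hi, hi2]
        exact hp.2
      · simp only [List.getD_eq_getElem _ _ hi, hi2]
  have hDc : D.card = L.length - cnt L W := by
    have h1 := Finset.card_filter_add_card_filter_not (s := (Finset.univ : Finset (Fin L.length)))
      (p := fun i => (L.getD i (0, 0)).1 ∈ W ∧ (L.getD i (0, 0)).2 ∈ W)
    rw [Finset.card_univ, Fintype.card_fin, ← hcnt W] at h1
    rw [hD]
    omega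
  have hcmp : (I.mistakes (solD D) : ℝ) ≤ W.length := by
    have := mistakes_solD (n := n) (r := c * n + 1) (b := L.length - cnt L W) D W (by
      intro i hi
      rw [hD, Finset.mem_filter] at hi
      by_contra hc
      exact hi ⟨Finset.mem_univ _, hc⟩)
    exact_mod_cast this
  have hm : I.mistakes S ≤ c * W.length := by
    have h1 := hS2 (solD D) (hF.feas _ _ _ _ D hDc.le)
    have h2 : α * (I.mistakes (solD D) : ℝ) ≤ c * W.length := by
      refine (mul_le_mul_of_nonneg_right hα (by positivity)).trans ?_
      exact mul_le_mul_of_nonneg_left hcmp (by positivity)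
    have h3 := h1.trans h2
    exact_mod_cast h3
  have h0 : ∀ i, (0 : Fin 2) ∈ S i := by
    intro i
    by_contra hc
    have h1 := r_le_mistakes (n := n) (r := c * n + 1) (b := L.length - cnt L W) S hc
    have h2 : c * W.length ≤ c * n := Nat.mul_le_mul_left _ hWn
    have h3 : (tinst n L (c * n + 1) (L.length - cnt L W)).mistakes S ≤ c * W.length := hm
    omega
  -- many nodes have one color
  have hT : cnt L W ≤ (Finset.univ.filter fun i : Fin L.length => (1 : Fin 2) ∉ S i).card := by
    have h1 := Finset.card_filter_add_card_filter_not (s := (Finset.univ : Finset (Fin L.length)))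
      (p := fun i => (1 : Fin 2) ∉ S i)
    rw [Finset.card_univ, Fintype.card_fin] at h1
    have h2 : (Finset.univ.filter fun i : Fin L.length => ¬ (1 : Fin 2) ∉ S i).card ≤
        L.length - cnt L W := by
      refine le_trans ?_ (hF.card_le I S rfl hS)
      refine Finset.card_le_card ?_
      intro i hi
      rw [Finset.mem_filter, not_not] at hi
      rw [Finset.mem_filter]
      refine ⟨Finset.mem_univ _, ?_⟩
      ext a
      refine ⟨fun _ => Finset.mem_univ _, fun _ => ?_⟩
      have ha : ∀ a : Fin 2, a = 0 ∨ a = 1 := by decide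
      have ha := ha a
      rcases ha with h | h
      · rw [h]; exact h0 i
      · rw [h]; exact hi.2
    have h3 : cnt L W ≤ L.length := List.length_filter_le _ _
    omega
  constructor
  · have h1 : (XL (List.range n) L (TL L (outS S))).length ≤ I.mistakes S := by
      refine le_trans (le_of_eq ?_) (le_mistakes (n := n) (r := c * n + 1)
        (b := L.length - cnt L W) S)
      unfold XL
      congr 1
      refine List.filter_congr fun x _ => ?_
      rw [Bool.eq_iff_iff, List.any_eq_true, decide_eq_true_iff]
      constructor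
      · rintro ⟨i, hi, hi2⟩
        obtain ⟨h, h'⟩ := (mem_TL S i).1 hi
        exact ⟨⟨i, h⟩, hi2, h'⟩
      · rintro ⟨i, hi, hi2⟩
        exact ⟨i, (mem_TL S i).2 ⟨i.2, hi2⟩, hi⟩
    exact (h1.trans hm).trans (Nat.mul_le_mul_left _ hW)
  · refine hT.trans ?_
    rw [hcnt]
    refine Finset.card_le_card ?_
    intro i hi
    rw [Finset.mem_filter] at hi ⊢
    refine ⟨Finset.mem_univ _, ?_⟩
    have hp : L.getD i (0, 0) ∈ L := by
      rw [List.getD_eq_getElem _ _ i.2]
      exact List.getElem_mem _
    have hiT : (i : ℕ) ∈ TL L (outS S) := (mem_TL S i).2 ⟨i.2, hi.2⟩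
    rw [mem_XL, mem_XL, List.mem_range, List.mem_range]
    exact ⟨⟨(hLn _ hp).1, i, hiT, by simp [inc]⟩, ⟨(hLn _ hp).2, i, hiT, by simp [inc]⟩⟩

end Pool.Agent.Q329.SC
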